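import Mathlib

set_option autoImplicit false

open Polynomial

namespace Pool.Agent.Helper106.MX

theorem key (q : ℕ) (hq : q.Prime) (h2 : q ≠ 2) : ∃ (θ : ℝ) (cs : List ℕ), 0 ≤ θ ∧ θ ≤ 1 ∧
    2 * cs.length = q - 1 ∧ (X ^ q - 1 : ℝ[X]) ∣
      (X - 1) * (cs.map fun c => C (1 - θ) * X ^ c + C (θ / 2) * (X ^ (2 * c) + 1)).prod := by
  have hq0 : q ≠ 0 := hq.ne_zero
  have hq3 : 3 ≤ q := by
    have := hq.two_le
    omega
  haveI : Fact q.Prime := ⟨hq⟩
  have hodd : q % 2 = 1 := by
    rcases hq.eq_two_or_odd with h | h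
    · exact absurd h h2
    · exact h
  set m : ℕ := (q - 1) / 2 with hm
  have hm2 : 2 * m = q - 1 := by omega
  set κ : ℝ := Real.cos (2 * Real.pi * m / q) with hκ
  have hqpos : (0 : ℝ) < q := by exact_mod_cast hq.pos
  have hmr : (2 : ℝ) * m = q - 1 := by
    have : ((2 * m : ℕ) : ℝ) = ((q - 1 : ℕ) : ℝ) := by rw [hm2]
    rw [Nat.cast_sub (by omega)] at this
    push_cast at this
    exact this
  have hκ0 : κ ≤ 0 := by
    apply Real.cos_nonpos_of_pi_div_two_le_of_le
    · rw [div_le_div_iff₀ (by norm_num) hqpos]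
      have h3 : (3 : ℝ) ≤ q := by exact_mod_cast hq3
      have e : 2 * Real.pi * m * 2 = Real.pi * (2 * (q - 1)) := by rw [← hmr]; ring
      rw [e]
      apply mul_le_mul_of_nonneg_left _ Real.pi_pos.le
      linarith
    · rw [div_le_iff₀ hqpos]
      have e : 2 * Real.pi * m = Real.pi * (q - 1) := by rw [← hmr]; ring
      rw [e]
      nlinarith [Real.pi_pos]
  set θ : ℝ := 1 / (1 - κ) with hθ
  have hpos : 0 < 1 - κ := by linarith
  have hθ1 : θ * (1 - κ) = 1 := by rw [hθ]; field_simp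
  let c : ℕ → ℕ := fun l => (((m : ZMod q)) * (l : ZMod q)⁻¹).val
  have hc : ∀ l : ℕ, 1 ≤ l → l < q → (c l * l) % q = m % q := by
    intro l h1 h2
    have hl : (l : ZMod q) ≠ 0 := by
      intro h0
      rw [ZMod.natCast_eq_zero_iff] at h0
      exact absurd (Nat.le_of_dvd (by omega) h0) (by omega)
    have : ((c l * l : ℕ) : ZMod q) = (m : ℕ) := by
      push_cast
      simp only [c]
      rw [ZMod.natCast_val, ZMod.cast_id', id, mul_assoc, inv_mul_cancel₀ hl, mul_one]
    exact (ZMod.natCast_eq_natCast_iff' _ _ _).1 this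
  refine ⟨θ, (List.range m).map (fun i => c (i + 1)), by positivity, ?_, ?_, ?_⟩
  · rw [hθ, div_le_one hpos]; linarith
  · simp [hm2]
  rw [← Polynomial.map_dvd_map' Complex.ofRealHom]
  have hprim := Complex.isPrimitiveRoot_exp q hq0
  set ζ : ℂ := Complex.exp (2 * Real.pi * Complex.I / q) with hζ
  have e1 : (X ^ q - 1 : ℝ[X]).map Complex.ofRealHom = X ^ q - 1 := by simp
  rw [e1, Polynomial.X_pow_sub_one_eq_prod hq.pos hprim]
  apply Finset.prod_dvd_of_coprime
  · intro a _ b _ hab
    exact Polynomial.pairwise_coprime_X_sub_C (s := fun z : ℂ => z) (fun x y h => h) hab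
  · intro ω hω
    have hωq : ω ^ q = 1 := (Polynomial.mem_nthRootsFinset hq.pos (1 : ℂ)).1 hω
    obtain ⟨i, hi, rfl⟩ := hprim.eq_pow_of_pow_eq_one hωq
    rw [Polynomial.dvd_iff_isRoot]
    show Polynomial.eval _ _ = 0
    rw [Polynomial.map_mul, Polynomial.eval_mul]
    rcases Nat.eq_zero_or_pos i with h0 | h0
    · subst h0
      simp
    -- the value `u`
    have hu : ∀ u : ℂ, (u = ζ ^ m ∨ u * ζ ^ m = 1) → u ^ 2 + 1 = 2 * (κ : ℂ) * u := by
      have h1 : (ζ ^ m) ^ 2 + 1 = 2 * (κ : ℂ) * ζ ^ m := by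
        have h3 : ζ ^ m = Complex.exp (((2 * Real.pi * m / q : ℝ) : ℂ) * Complex.I) := by
          rw [hζ, ← Complex.exp_nat_mul]
          congr 1
          push_cast
          ring
        have h4 : (κ : ℂ) = (Complex.exp (((2 * Real.pi * m / q : ℝ) : ℂ) * Complex.I) +
            Complex.exp (-((2 * Real.pi * m / q : ℝ) : ℂ) * Complex.I)) / 2 := by
          rw [hκ, Complex.ofReal_cos]
          rfl
        rw [h3, h4]
        have h5 : Complex.exp (((2 * Real.pi * m / q : ℝ) : ℂ) * Complex.I) *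
            Complex.exp (-((2 * Real.pi * m / q : ℝ) : ℂ) * Complex.I) = 1 := by
          rw [← Complex.exp_add]
          simp
        linear_combination -h5
      rintro u (rfl | hu)
      · exact h1
      · have hne : ζ ^ m ≠ 0 := by
          intro h; rw [h, mul_zero] at hu; exact zero_ne_one hu
        have : (ζ ^ m) ^ 2 * (u ^ 2 + 1) = (ζ ^ m) ^ 2 * (2 * (κ : ℂ) * u) := by
          have e : (ζ ^ m) ^ 2 * (u ^ 2 + 1) = (u * ζ ^ m) ^ 2 + (ζ ^ m) ^ 2 := by ring
          have e' : (ζ ^ m) ^ 2 * (2 * (κ : ℂ) * u) = 2 * κ * ζ ^ m * (u * ζ ^ m) := by ring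
          rw [e, e', hu]
          linear_combination h1
        exact mul_left_cancel₀ (pow_ne_zero 2 hne) this
    -- the index
    have hidx : ∃ l : ℕ, 1 ≤ l ∧ l ≤ m ∧ ((ζ ^ i) ^ c l = ζ ^ m ∨ (ζ ^ i) ^ c l * ζ ^ m = 1) := by
      have hmod : ∀ x y : ℕ, x % q = y % q → ζ ^ x = ζ ^ y := by
        intro x y hxy
        rw [← Nat.mod_add_div x q, ← Nat.mod_add_div y q, pow_add, pow_add, pow_mul, pow_mul,
          hprim.pow_eq_one, one_pow, one_pow, hxy]
      by_cases h : i ≤ m
      · refine ⟨i, h0, h, Or.inl ?_⟩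
        rw [← pow_mul]
        apply hmod
        rw [mul_comm]
        exact hc i h0 hi
      · refine ⟨q - i, by omega, by omega, Or.inr ?_⟩
        have h5 := hc (q - i) (by omega) (by omega)
        rw [← pow_mul, ← hmod _ _ h5, ← pow_add]
        have e : i * c (q - i) + c (q - i) * (q - i) = q * c (q - i) := by
          rw [mul_comm i, ← mul_add]
          rw [show i + (q - i) = q by omega, mul_comm]
        rw [e, pow_mul, hprim.pow_eq_one, one_pow]
    obtain ⟨l, hl1, hlm, hl⟩ := hidx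
    have hu' := hu _ hl
    apply mul_eq_zero_of_right
    rw [Polynomial.map_list_prod, Polynomial.eval_list_prod]
    apply List.prod_eq_zero
    simp only [List.map_map, List.mem_map, List.mem_range]
    refine ⟨l - 1, by omega, ?_⟩
    have hl' : l - 1 + 1 = l := by omega
    simp only [Function.comp, hl']
    simp only [Polynomial.map_add, Polynomial.map_mul, Polynomial.map_pow, Polynomial.map_X,
      Polynomial.map_C, Polynomial.map_one, Polynomial.eval_add, Polynomial.eval_mul,
      Polynomial.eval_C, Polynomial.eval_pow, Polynomial.eval_X, Polynomial.eval_one]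
    rw [mul_comm 2 (c l), pow_mul _ (c l) 2, hu']
    have hθc : (θ : ℂ) * (1 - κ) = 1 := by exact_mod_cast congrArg (fun t : ℝ => (t : ℂ)) hθ1
    simp only [Complex.ofRealHom_eq_coe]
    push_cast
    linear_combination (-(ζ ^ i) ^ c l) * hθc

end Pool.Agent.Helper106.MX
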